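import Mathlib

/-!
# MP_dd51f8_al : B. H. Neumann's groups, definitions
-/

open Filter Topology

namespace Pool.Agent.H.MP_dd51f8_al

/-! ## Definitions -/

/-- A strictly increasing sequence of odd integers, all at least `5`. -/
structure OddSeq where
  /-- the sequence -/
  u : ℕ → ℕ
  mono : StrictMono u
  odd : ∀ j, Odd (u j)
  five_le : 5 ≤ u 0

/-- The set `{-n, …, n}`. -/
abbrev Cyc (n : ℕ) : Type := {x : ℤ // -(n : ℤ) ≤ x ∧ x ≤ n}

/-- The cyclic permutation `k ↦ k + 1` for `k < n`, `n ↦ -n` of `{-n, …, n}`. -/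
def rot (n : ℕ) : Equiv.Perm (Cyc n) where
  toFun x := if h : x.1 < n then ⟨x.1 + 1, by have := x.2; omega, by omega⟩
    else ⟨-n, by omega, by omega⟩
  invFun x := if h : -(n : ℤ) < x.1 then ⟨x.1 - 1, by omega, by have := x.2; omega⟩
    else ⟨n, by omega, by omega⟩
  left_inv x := by
    obtain ⟨x, h1, h2⟩ := x
    by_cases h : x < n
    · have h3 : -(n : ℤ) < x + 1 := by omega
      simp [h, h3]
    · have h4 : x = n := by omega
      subst h4
      simp
  right_inv x := by
    obtain ⟨x, h1, h2⟩ := x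
    by_cases h : -(n : ℤ) < x
    · have h3 : x - 1 < n := by omega
      simp [h, h3]
    · have h4 : x = -n := by omega
      subst h4
      simp

/-- The 3-cycle `-1 ↦ 0 ↦ 1 ↦ -1` as a map `ℤ → ℤ`. -/
def c3 (x : ℤ) : ℤ := if x = -1 then 0 else if x = 0 then 1 else if x = 1 then -1 else x

/-- The inverse 3-cycle `1 ↦ 0 ↦ -1 ↦ 1`. -/
def c3' (x : ℤ) : ℤ := if x = 1 then 0 else if x = 0 then -1 else if x = -1 then 1 else x

theorem c3'_c3 (x : ℤ) : c3' (c3 x) = x := by
  unfold c3 c3'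
  by_cases h1 : x = -1
  · subst h1; norm_num
  by_cases h2 : x = 0
  · subst h2; norm_num
  by_cases h3 : x = 1
  · subst h3; norm_num
  simp [h1, h2, h3]

theorem c3_c3' (x : ℤ) : c3 (c3' x) = x := by
  unfold c3 c3'
  by_cases h1 : x = -1
  · subst h1; norm_num
  by_cases h2 : x = 0
  · subst h2; norm_num
  by_cases h3 : x = 1
  · subst h3; norm_num
  simp [h1, h2, h3]

/-- The 3-cycle `(-1 0 1)` of `ℤ`. -/
def cycZ : Equiv.Perm ℤ where
  toFun := c3
  invFun := c3'
  left_inv := c3'_c3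
  right_inv := c3_c3'

/-- The shift `k ↦ k + 1` of `ℤ`. -/
def shiftZ : Equiv.Perm ℤ where
  toFun x := x + 1
  invFun x := x - 1
  left_inv x := by simp
  right_inv x := by simp

/-- The 3-cycle `(-1 0 1)` of `{-n, …, n}`, `n ≥ 1`. -/
def three (n : ℕ) (hn : 1 ≤ n) : Equiv.Perm (Cyc n) where
  toFun x := ⟨c3 x.1, by have := x.2; unfold c3; split_ifs <;> omega,
    by have := x.2; unfold c3; split_ifs <;> omega⟩
  invFun x := ⟨c3' x.1, by have := x.2; unfold c3'; split_ifs <;> omega,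
    by have := x.2; unfold c3'; split_ifs <;> omega⟩
  left_inv x := Subtype.ext (c3'_c3 x.1)
  right_inv x := Subtype.ext (c3_c3' x.1)

/-- `n_j`, where `u_j = 2 n_j + 1`. -/
def OddSeq.n (U : OddSeq) (j : ℕ) : ℕ := U.u j / 2

theorem OddSeq.two_le (U : OddSeq) (j : ℕ) : 2 ≤ U.n j := by
  have h := U.mono.monotone (Nat.zero_le j)
  have h5 := U.five_le
  unfold OddSeq.n
  omega

/-- The set `X_U`, the disjoint union of the sets `C_j = {-n_j, …, n_j}`. -/
abbrev X (U : OddSeq) : Type := Σ j : ℕ, Cyc (U.n j)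

/-- The permutation `α` of `X_U`. -/
def alpha (U : OddSeq) : Equiv.Perm (X U) := Equiv.sigmaCongrRight fun j => rot (U.n j)

/-- The permutation `β` of `X_U`. -/
def beta (U : OddSeq) : Equiv.Perm (X U) :=
  Equiv.sigmaCongrRight fun j => three (U.n j) (le_trans (by norm_num) (U.two_le j))

/-- The number of elements that are products of at most `k` factors from `S ∪ S⁻¹`. -/
noncomputable def ballCard {G : Type*} [Group G] (S : Set G) (k : ℕ) : ℕ :=
  Set.ncard {g : G | ∃ l : List G, l.length ≤ k ∧ (∀ s ∈ l, s ∈ S ∨ s⁻¹ ∈ S) ∧ l.prod = g}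

/-- `lam` is the exponential growth rate `lim_k β(k)^{1/k}` of the group generated by `S`. -/
def HasRate {G : Type*} [Group G] (S : Set G) (lam : ℝ) : Prop :=
  Tendsto (fun k : ℕ => (ballCard S k : ℝ) ^ (1 / (k : ℝ))) atTop (𝓝 lam)

end Pool.Agent.H.MP_dd51f8_al
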