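import Pool.Agent.H.MP_dd51f8_al.Defs

open Filter Topology

namespace Pool.Agent.H.MP_dd51f8_al

/-! ## Words -/

/-- letters: `0 = b`, `1 = b⁻¹`, `2 = a`, `3 = a⁻¹` -/
def gen {G : Type*} [Group G] (a b : G) (c : Fin 4) : G :=
  match c with
  | 0 => b
  | 1 => b⁻¹
  | 2 => a
  | 3 => a⁻¹

/-- evaluation of words -/
def ev {G : Type*} [Group G] (a b : G) (w : List (Fin 4)) : G := (w.map (gen a b)).prod

section words
variable {G : Type*} [Group G] (a b : G)

@[simp] theorem ev_nil : ev a b [] = 1 := rfl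

@[simp] theorem ev_cons (c : Fin 4) (w : List (Fin 4)) : ev a b (c :: w) = gen a b c * ev a b w := by
  simp [ev]

theorem ev_append (w v : List (Fin 4)) : ev a b (w ++ v) = ev a b w * ev a b v := by
  simp [ev]

/-- words of length at most `k` -/
def wle (k : ℕ) : Set (List (Fin 4)) := {w | w.length ≤ k}

theorem wle_finite (k : ℕ) : (wle k).Finite := List.finite_length_le (Fin 4) k

theorem ball_eq (k : ℕ) :
    {g : G | ∃ l : List G, l.length ≤ k ∧ (∀ s ∈ l, s ∈ ({a, b} : Set G) ∨ s⁻¹ ∈ ({a, b} : Set G)) ∧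
      l.prod = g} = ev a b '' wle k := by
  ext g
  constructor
  · rintro ⟨l, hl, hs, rfl⟩
    induction l generalizing k with
    | nil => exact ⟨[], by simp [wle], rfl⟩
    | cons s l ih =>
      have hk : 1 ≤ k := by simp at hl; omega
      obtain ⟨w, hw, hw2⟩ := ih (k - 1) (by simp at hl; omega)
        (fun s hs' => hs s (List.mem_cons_of_mem _ hs'))
      have h1 := hs s List.mem_cons_self
      have hc : ∃ c : Fin 4, gen a b c = s := by
        rcases h1 with h1 | h1
        · rcases h1 with h1 | h1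
          · exact ⟨2, h1.symm⟩
          · exact ⟨0, h1.symm⟩
        · rcases h1 with h1 | h1
          · exact ⟨3, by rw [show gen a b 3 = a⁻¹ from rfl, ← h1, inv_inv]⟩
          · have h1 : s⁻¹ = b := h1
            exact ⟨1, by rw [show gen a b 1 = b⁻¹ from rfl, ← h1, inv_inv]⟩
      obtain ⟨c, hc⟩ := hc
      refine ⟨c :: w, ?_, ?_⟩
      · simp only [wle, Set.mem_ofPred_eq, List.length_cons] at hw ⊢; omega
      · rw [ev_cons, hw2, hc, List.prod_cons]
  · rintro ⟨w, hw, rfl⟩
    refine ⟨w.map (gen a b), by simpa [wle] using hw, ?_, rfl⟩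
    intro s hs
    obtain ⟨c, -, rfl⟩ := List.mem_map.1 hs
    fin_cases c
    · exact Or.inl (Or.inr rfl)
    · exact Or.inr (by simp [gen])
    · exact Or.inl (Or.inl rfl)
    · exact Or.inr (by simp [gen])

theorem ballCard_eq (k : ℕ) : ballCard ({a, b} : Set G) k = (ev a b '' wle k).ncard := by
  rw [ballCard, ball_eq]

theorem ballCard_pos (k : ℕ) : 1 ≤ ballCard ({a, b} : Set G) k := by
  rw [ballCard_eq]
  have : (ev a b '' wle k).Nonempty := ⟨_, ⟨[], by simp [wle], rfl⟩⟩
  exact (Set.ncard_pos ((wle_finite k).image _)).2 this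

theorem ballCard_add (m n : ℕ) :
    ballCard ({a, b} : Set G) (m + n) ≤ ballCard ({a, b} : Set G) m * ballCard ({a, b} : Set G) n := by
  rw [ballCard_eq, ballCard_eq, ballCard_eq]
  have hsub : ev a b '' wle (m + n) ⊆ (fun p : G × G => p.1 * p.2) ''
      ((ev a b '' wle m) ×ˢ (ev a b '' wle n)) := by
    rintro _ ⟨w, hw, rfl⟩
    refine ⟨(ev a b (w.take m), ev a b (w.drop m)), ⟨⟨_, ?_, rfl⟩, ⟨_, ?_, rfl⟩⟩, ?_⟩
    · simp [wle]
    · simp only [wle, Set.mem_ofPred_eq, List.length_drop] at hw ⊢; omega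
    · simp only
      rw [← ev_append, List.take_append_drop]
  have hfin : ((ev a b '' wle m) ×ˢ (ev a b '' wle n)).Finite :=
    ((wle_finite m).image _).prod ((wle_finite n).image _)
  calc (ev a b '' wle (m + n)).ncard
      ≤ ((fun p : G × G => p.1 * p.2) '' ((ev a b '' wle m) ×ˢ (ev a b '' wle n))).ncard :=
        Set.ncard_le_ncard hsub (hfin.image _)
    _ ≤ ((ev a b '' wle m) ×ˢ (ev a b '' wle n)).ncard := Set.ncard_image_le hfin
    _ = _ := Set.ncard_prod

end words

/-- comparison of images -/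
theorem ncard_image_le_of_factor {W A B : Type*} (s : Set W) (hs : s.Finite) (f : W → A) (g : W → B)
    (h : ∀ x ∈ s, ∀ y ∈ s, f x = f y → g x = g y) : (g '' s).ncard ≤ (f '' s).ncard := by
  classical
  rcases s.eq_empty_or_nonempty with rfl | ⟨x0, hx0⟩
  · simp
  have : ∀ z, ∃ y : B, ∀ x ∈ s, f x = z → g x = y := by
    intro z
    by_cases hz : ∃ x ∈ s, f x = z
    · obtain ⟨x, hx, hxz⟩ := hz
      exact ⟨g x, fun x' hx' hz' => h x' hx' x hx (hz'.trans hxz.symm)⟩
    · exact ⟨g x0, fun x hx hxz => absurd ⟨x, hx, hxz⟩ hz⟩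
  choose φ hφ using this
  have himg : g '' s ⊆ φ '' (f '' s) := by
    rintro _ ⟨x, hx, rfl⟩
    exact ⟨f x, ⟨x, hx, rfl⟩, (hφ (f x) x hx rfl).symm⟩
  calc (g '' s).ncard ≤ (φ '' (f '' s)).ncard :=
        Set.ncard_le_ncard himg ((hs.image f).image φ)
    _ ≤ (f '' s).ncard := Set.ncard_image_le (hs.image f)

/-! ## Fekete -/

section fekete
variable {G : Type*} [Group G] (a b : G)

/-- logarithm of the growth function -/
noncomputable def lg (k : ℕ) : ℝ := Real.log (ballCard ({a, b} : Set G) k)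

theorem lg_nonneg (k : ℕ) : 0 ≤ lg a b k :=
  Real.log_nonneg (by exact_mod_cast ballCard_pos a b k)

theorem lg_sub : Subadditive (lg a b) := by
  intro m n
  have h1 : (0 : ℝ) < ballCard ({a, b} : Set G) m := by exact_mod_cast ballCard_pos a b m
  have h2 : (0 : ℝ) < ballCard ({a, b} : Set G) n := by exact_mod_cast ballCard_pos a b n
  have h3 : (0 : ℝ) < ballCard ({a, b} : Set G) (m + n) := by
    exact_mod_cast ballCard_pos a b (m + n)
  unfold lg
  rw [← Real.log_mul h1.ne' h2.ne']
  exact Real.log_le_log h3 (by exact_mod_cast ballCard_add a b m n)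

theorem lg_bdd : BddBelow (Set.range fun n => lg a b n / n) := by
  refine ⟨0, ?_⟩
  rintro _ ⟨n, rfl⟩
  exact div_nonneg (lg_nonneg a b n) (Nat.cast_nonneg n)

/-- the limit of `log β(k) / k` -/
noncomputable def L : ℝ := (lg_sub a b).lim

theorem L_tendsto : Tendsto (fun n : ℕ => lg a b n / n) atTop (𝓝 (L a b)) :=
  (lg_sub a b).tendsto_lim (lg_bdd a b)

theorem L_le {n : ℕ} (hn : n ≠ 0) : L a b ≤ lg a b n / n :=
  (lg_sub a b).lim_le_div (lg_bdd a b) hn

theorem hasRate : HasRate ({a, b} : Set G) (Real.exp (L a b)) := by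
  unfold HasRate
  have h := (Real.continuous_exp.tendsto (L a b)).comp (L_tendsto a b)
  refine h.congr' ?_
  filter_upwards with k
  have h1 : (0 : ℝ) < ballCard ({a, b} : Set G) k := by exact_mod_cast ballCard_pos a b k
  simp only [Function.comp]
  rw [Real.rpow_def_of_pos h1, lg]
  congr 1
  ring

/-- If `β(k) ≤ C (k+1) ρ^k` for all `k`, then `L ≤ log ρ`. -/
theorem L_le_log {C ρ : ℝ} (hC : 0 < C) (hρ : 0 < ρ)
    (h : ∀ k : ℕ, (ballCard ({a, b} : Set G) k : ℝ) ≤ C * (k + 1) * ρ ^ k) : L a b ≤ Real.log ρ := by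
  have h1 : ∀ k : ℕ, lg a b k ≤ Real.log C + Real.log (k + 1) + k * Real.log ρ := by
    intro k
    have hk : (0 : ℝ) < (k : ℝ) + 1 := by positivity
    have h0 : (0 : ℝ) < ballCard ({a, b} : Set G) k := by exact_mod_cast ballCard_pos a b k
    calc lg a b k ≤ Real.log (C * (k + 1) * ρ ^ k) := Real.log_le_log h0 (h k)
      _ = _ := by
        rw [Real.log_mul (by positivity) (by positivity), Real.log_mul hC.ne' hk.ne', Real.log_pow]
  have hlim : Tendsto (fun k : ℕ => (Real.log C + Real.log (k + 1) + k * Real.log ρ) / k) atTop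
      (𝓝 (0 + 0 + Real.log ρ)) := by
    have e1 : Tendsto (fun k : ℕ => Real.log C / (k : ℝ)) atTop (𝓝 0) :=
      tendsto_const_nhds.div_atTop tendsto_natCast_atTop_atTop
    have e2 : Tendsto (fun k : ℕ => Real.log ((k : ℝ) + 1) / (k : ℝ)) atTop (𝓝 0) := by
      have h3 : Tendsto (fun x : ℝ => Real.log x / x) atTop (𝓝 0) := by
        have := Real.isLittleO_log_id_atTop
        exact this.tendsto_div_nhds_zero
      have h4 : Tendsto (fun k : ℕ => ((k : ℝ) + 1)) atTop atTop :=
        tendsto_atTop_add_const_right _ _ tendsto_natCast_atTop_atTop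
      have h5 := h3.comp h4
      have h6 : Tendsto (fun k : ℕ => ((k : ℝ) + 1) / k) atTop (𝓝 1) := by
        have : Tendsto (fun k : ℕ => 1 + 1 / (k : ℝ)) atTop (𝓝 (1 + 0)) :=
          tendsto_const_nhds.add tendsto_one_div_atTop_nhds_zero_nat
        rw [add_zero] at this
        refine this.congr' ?_
        filter_upwards [eventually_gt_atTop 0] with k hk
        have : (k : ℝ) ≠ 0 := by positivity
        field_simp
      have h7 := h5.mul h6
      rw [zero_mul] at h7
      refine h7.congr' ?_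
      filter_upwards [eventually_gt_atTop 0] with k hk
      have hk' : (k : ℝ) ≠ 0 := by positivity
      have hk1 : (k : ℝ) + 1 ≠ 0 := by positivity
      simp only [Function.comp]
      field_simp
    have e3 : Tendsto (fun k : ℕ => ((k : ℝ) * Real.log ρ) / (k : ℝ)) atTop (𝓝 (Real.log ρ)) := by
      refine tendsto_const_nhds.congr' ?_
      filter_upwards [eventually_gt_atTop 0] with k hk
      have hk' : (k : ℝ) ≠ 0 := by positivity
      field_simp
    refine ((e1.add e2).add e3).congr ?_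
    intro k
    rw [add_div, add_div]
  have := le_of_tendsto_of_tendsto' (L_tendsto a b) hlim
    (fun k => div_le_div_of_nonneg_right (h1 k) (Nat.cast_nonneg k))
  simpa using this

/-- If `2 ^ k ≤ 2 β(k)` for all `k`, then `log 2 ≤ L`. -/
theorem log_two_le_L (h : ∀ k : ℕ, (2 : ℝ) ^ k ≤ 2 * ballCard ({a, b} : Set G) k) :
    Real.log 2 ≤ L a b := by
  have h1 : ∀ k : ℕ, k * Real.log 2 - Real.log 2 ≤ lg a b k := by
    intro k
    have h0 : (0 : ℝ) < ballCard ({a, b} : Set G) k := by exact_mod_cast ballCard_pos a b k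
    have h2 := Real.log_le_log (by positivity) (h k)
    rw [Real.log_pow, Real.log_mul two_ne_zero h0.ne'] at h2
    unfold lg
    linarith
  have hlim : Tendsto (fun k : ℕ => (k * Real.log 2 - Real.log 2) / k) atTop
      (𝓝 (Real.log 2 - 0)) := by
    have e1 : Tendsto (fun k : ℕ => Real.log 2 / (k : ℝ)) atTop (𝓝 0) :=
      tendsto_const_nhds.div_atTop tendsto_natCast_atTop_atTop
    have e3 : Tendsto (fun k : ℕ => ((k : ℝ) * Real.log 2) / (k : ℝ)) atTop (𝓝 (Real.log 2)) := by
      refine tendsto_const_nhds.congr' ?_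
      filter_upwards [eventually_gt_atTop 0] with k hk
      have hk' : (k : ℝ) ≠ 0 := by positivity
      field_simp
    refine (e3.sub e1).congr ?_
    intro k
    rw [sub_div]
  have := le_of_tendsto_of_tendsto' hlim (L_tendsto a b)
    (fun k => div_le_div_of_nonneg_right (h1 k) (Nat.cast_nonneg k))
  simpa using this

/-- Comparison of limits: if `β_H(k) ≤ K β_G(k)` for all `k` then `L_H ≤ L_G`. -/
theorem L_le_of_mul {H : Type*} [Group H] (a' b' : H) (K : ℕ) (hK : 0 < K)
    (h : ∀ k : ℕ, ballCard ({a', b'} : Set H) k ≤ K * ballCard ({a, b} : Set G) k) :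
    L a' b' ≤ L a b := by
  have h1 : ∀ k : ℕ, lg a' b' k ≤ Real.log K + lg a b k := by
    intro k
    have h0 : (0 : ℝ) < ballCard ({a, b} : Set G) k := by exact_mod_cast ballCard_pos a b k
    have h0' : (0 : ℝ) < ballCard ({a', b'} : Set H) k := by exact_mod_cast ballCard_pos a' b' k
    have hK' : (0 : ℝ) < K := by exact_mod_cast hK
    unfold lg
    rw [← Real.log_mul hK'.ne' h0.ne']
    exact Real.log_le_log h0' (by exact_mod_cast h k)
  have hlim : Tendsto (fun k : ℕ => (Real.log K + lg a b k) / k) atTop (𝓝 (0 + L a b)) := by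
    have e1 : Tendsto (fun k : ℕ => Real.log K / (k : ℝ)) atTop (𝓝 0) :=
      tendsto_const_nhds.div_atTop tendsto_natCast_atTop_atTop
    refine (e1.add (L_tendsto a b)).congr ?_
    intro k
    rw [add_div]
  have := le_of_tendsto_of_tendsto' (L_tendsto a' b') hlim
    (fun k => div_le_div_of_nonneg_right (h1 k) (Nat.cast_nonneg k))
  simpa using this

end fekete

/-! ## Dynamics -/

/-- exponent sum of `a` in a word -/
def ex : List (Fin 4) → ℤ
  | [] => 0
  | c :: w => (if c = 2 then 1 else if c = 3 then -1 else 0) + ex w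

/-- evaluation in `Sym(ℤ)` -/
abbrev evZ (w : List (Fin 4)) : Equiv.Perm ℤ := ev shiftZ cycZ w

/-- evaluation in `Sym(C_n)` -/
abbrev evC (n : ℕ) (hn : 1 ≤ n) (w : List (Fin 4)) : Equiv.Perm (Cyc n) := ev (rot n) (three n hn) w

theorem c3_abs (x : ℤ) : |c3 x| ≤ |x| + 1 := by
  unfold c3; split_ifs <;> first | omega | (subst_vars; simp)

theorem c3'_abs (x : ℤ) : |c3' x| ≤ |x| + 1 := by
  unfold c3'; split_ifs <;> first | omega | (subst_vars; simp)

theorem c3_far {x : ℤ} (h : 2 ≤ |x|) : c3 x = x := by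
  have : x ≠ -1 ∧ x ≠ 0 ∧ x ≠ 1 := by
    refine ⟨?_, ?_, ?_⟩ <;> rintro rfl <;> norm_num at h
  unfold c3
  rw [if_neg this.1, if_neg this.2.1, if_neg this.2.2]

theorem c3'_far {x : ℤ} (h : 2 ≤ |x|) : c3' x = x := by
  have : x ≠ -1 ∧ x ≠ 0 ∧ x ≠ 1 := by
    refine ⟨?_, ?_, ?_⟩ <;> rintro rfl <;> norm_num at h
  unfold c3'
  rw [if_neg this.2.2, if_neg this.2.1, if_neg this.1]

theorem rot_val (n : ℕ) (y : Cyc n) : (rot n y).1 = if y.1 < n then y.1 + 1 else -(n : ℤ) := by
  by_cases h : y.1 < n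
  · simp [rot, h]
  · simp [rot, h]

theorem rot_inv_val (n : ℕ) (y : Cyc n) :
    ((rot n)⁻¹ y).1 = if -(n : ℤ) < y.1 then y.1 - 1 else (n : ℤ) := by
  have e : ((rot n)⁻¹ y).1 = ((rot n).symm y).1 := rfl
  rw [e]
  by_cases h : -(n : ℤ) < y.1
  · simp [rot, h]
  · simp [rot, h]

theorem evZ_abs (w : List (Fin 4)) (y : ℤ) : |evZ w y| ≤ |y| + w.length := by
  induction w with
  | nil => simp
  | cons c w ih =>
    rw [evZ, ev_cons, Equiv.Perm.mul_apply, List.length_cons]
    have : |gen shiftZ cycZ c (evZ w y)| ≤ |evZ w y| + 1 := by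
      generalize evZ w y = z
      fin_cases c
      · exact c3_abs z
      · exact c3'_abs z
      · change |z + 1| ≤ |z| + 1
        have := abs_add_le z 1
        simpa using this
      · change |z - 1| ≤ |z| + 1
        have := abs_sub z 1
        simpa using this
    push_cast
    linarith

theorem evC_near (n : ℕ) (hn : 1 ≤ n) (w : List (Fin 4)) (x : Cyc n)
    (h : |x.1| + w.length ≤ n) : (evC n hn w x).1 = evZ w x.1 := by
  induction w with
  | nil => rfl
  | cons c w ih =>
    rw [List.length_cons] at h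
    push_cast at h
    have ih := ih (by linarith)
    have hb := evZ_abs w x.1
    rw [evZ, evC, ev_cons, ev_cons, Equiv.Perm.mul_apply, Equiv.Perm.mul_apply]
    change ((gen (rot n) (three n hn) c) (evC n hn w x)).1 = gen shiftZ cycZ c (evZ w x.1)
    rw [← ih] at hb ⊢
    generalize evC n hn w x = y at hb ⊢
    have hy := abs_le.1 (show |y.1| ≤ (n : ℤ) - 1 by linarith)
    fin_cases c
    · rfl
    · rfl
    · change (rot n y).1 = y.1 + 1
      rw [rot_val, if_pos (by linarith)]
    · change ((rot n)⁻¹ y).1 = y.1 - 1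
      rw [rot_inv_val, if_pos (by linarith)]

theorem evC_far (n : ℕ) (hn : 1 ≤ n) (w : List (Fin 4)) (x : Cyc n)
    (h : (w.length : ℤ) + 2 ≤ |x.1|) :
    evC n hn w x = (rot n ^ ex w) x ∧ |x.1| - w.length ≤ |(evC n hn w x).1| := by
  induction w with
  | nil => simp [ex]
  | cons c w ih =>
    rw [List.length_cons] at h ⊢
    push_cast at h ⊢
    obtain ⟨ih1, ih2⟩ := ih (by linarith)
    have e1 : evC n hn (c :: w) x = (gen (rot n) (three n hn) c) (evC n hn w x) := by
      rw [evC, ev_cons, Equiv.Perm.mul_apply]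
    rw [e1]
    have hb : 2 ≤ |(evC n hn w x).1| := by linarith
    have hr := (evC n hn w x).2
    fin_cases c
    · have : (gen (rot n) (three n hn) 0) (evC n hn w x) = evC n hn w x :=
        Subtype.ext (c3_far hb)
      change (gen (rot n) (three n hn) 0) (evC n hn w x) = _ ∧
        _ ≤ |((gen (rot n) (three n hn) 0) (evC n hn w x)).1|
      rw [this]
      refine ⟨?_, by linarith⟩
      rw [ih1]; simp [ex]
    · have : (gen (rot n) (three n hn) 1) (evC n hn w x) = evC n hn w x :=
        Subtype.ext (c3'_far hb)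
      change (gen (rot n) (three n hn) 1) (evC n hn w x) = _ ∧
        _ ≤ |((gen (rot n) (three n hn) 1) (evC n hn w x)).1|
      rw [this]
      refine ⟨?_, by linarith⟩
      rw [ih1]; simp [ex]
    · change rot n (evC n hn w x) = _ ∧ _ ≤ |(rot n (evC n hn w x)).1|
      constructor
      · rw [ih1, ← Equiv.Perm.mul_apply]
        congr 1
        simp [ex, zpow_add]
      · rw [rot_val]
        split_ifs with h1
        · have := abs_sub_abs_le_abs_sub (evC n hn w x).1 (-1)
          simp at this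
          linarith
        · have h2 : (evC n hn w x).1 = n := by omega
          rw [h2] at ih2
          rw [abs_neg]
          linarith
    · change (rot n)⁻¹ (evC n hn w x) = _ ∧ _ ≤ |((rot n)⁻¹ (evC n hn w x)).1|
      constructor
      · rw [ih1, ← Equiv.Perm.mul_apply]
        congr 1
        simp [ex, zpow_add]
      · rw [rot_inv_val]
        split_ifs with h1
        · have := abs_sub_abs_le_abs_sub (evC n hn w x).1 1
          simp at this
          linarith
        · have h2 : (evC n hn w x).1 = -n := by omega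
          rw [h2, abs_neg] at ih2
          linarith

theorem evZ_far (w : List (Fin 4)) (x : ℤ) (h : (w.length : ℤ) + 2 ≤ |x|) :
    evZ w x = x + ex w ∧ |x| - w.length ≤ |evZ w x| := by
  induction w with
  | nil => simp [ex]
  | cons c w ih =>
    rw [List.length_cons] at h ⊢
    push_cast at h ⊢
    obtain ⟨ih1, ih2⟩ := ih (by linarith)
    have e1 : evZ (c :: w) x = (gen shiftZ cycZ c) (evZ w x) := by
      rw [evZ, ev_cons, Equiv.Perm.mul_apply]
    rw [e1]
    have hb : 2 ≤ |evZ w x| := by linarith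
    fin_cases c
    · change c3 (evZ w x) = _ ∧ _ ≤ |c3 (evZ w x)|
      rw [c3_far hb]
      refine ⟨?_, by linarith⟩
      rw [ih1]; simp [ex]
    · change c3' (evZ w x) = _ ∧ _ ≤ |c3' (evZ w x)|
      rw [c3'_far hb]
      refine ⟨?_, by linarith⟩
      rw [ih1]; simp [ex]
    · change evZ w x + 1 = _ ∧ _ ≤ |evZ w x + 1|
      constructor
      · rw [ih1]; simp [ex]; ring
      · have := abs_sub_abs_le_abs_sub (evZ w x) (-1)
        simp at this
        linarith
    · change evZ w x - 1 = _ ∧ _ ≤ |evZ w x - 1|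
      constructor
      · rw [ih1]; simp [ex]; ring
      · have := abs_sub_abs_le_abs_sub (evZ w x) 1
        simp at this
        linarith

theorem ex_eq_of_evZ {w1 w2 : List (Fin 4)} (h : evZ w1 = evZ w2) : ex w1 = ex w2 := by
  set x : ℤ := w1.length + w2.length + 2 with hx
  have hx0 : |x| = x := abs_of_nonneg (by positivity)
  have h1 := (evZ_far w1 x (by rw [hx0, hx]; linarith [Int.natCast_nonneg w2.length])).1
  have h2 := (evZ_far w2 x (by rw [hx0, hx]; linarith [Int.natCast_nonneg w1.length])).1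
  rw [h] at h1
  linarith

theorem Z_to_C {m n : ℕ} (hn1 : 1 ≤ n) {w1 w2 : List (Fin 4)} (h1 : w1.length ≤ m)
    (h2 : w2.length ≤ m) (hn : 2 * m + 2 ≤ n) (h : evZ w1 = evZ w2) :
    evC n hn1 w1 = evC n hn1 w2 := by
  have h1' : (w1.length : ℤ) ≤ m := by exact_mod_cast h1
  have h2' : (w2.length : ℤ) ≤ m := by exact_mod_cast h2
  have hn' : 2 * (m : ℤ) + 2 ≤ n := by exact_mod_cast hn
  ext x
  by_cases hx : |x.1| + m ≤ n
  · rw [evC_near n hn1 w1 x (by linarith), evC_near n hn1 w2 x (by linarith), h]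
  · push Not at hx
    rw [(evC_far n hn1 w1 x (by linarith)).1, (evC_far n hn1 w2 x (by linarith)).1,
      ex_eq_of_evZ h]

theorem C_to_Z {w1 w2 : List (Fin 4)}
    (h : ∀ N : ℕ, ∃ n : ℕ, ∃ hn : 1 ≤ n, N ≤ n ∧ evC n hn w1 = evC n hn w2) :
    evZ w1 = evZ w2 := by
  ext x
  obtain ⟨n, hn, hN, he⟩ := h (x.natAbs + w1.length + w2.length)
  have hN' : (x.natAbs : ℤ) + w1.length + w2.length ≤ n := by exact_mod_cast hN
  rw [Int.natCast_natAbs] at hN'
  have p1 := Int.natCast_nonneg w1.length
  have p2 := Int.natCast_nonneg w2.length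
  have hx := abs_le.1 (show |x| ≤ (n : ℤ) by linarith)
  have e1 := evC_near n hn w1 ⟨x, hx⟩ (by simpa using by linarith)
  have e2 := evC_near n hn w2 ⟨x, hx⟩ (by simpa using by linarith)
  rw [he] at e1
  simp only at e1 e2
  rw [← e1, ← e2]

/-! ## The groups `G_U` -/

theorem OddSeq.n_ge (U : OddSeq) (j : ℕ) : j + 2 ≤ U.n j := by
  induction j with
  | zero => simpa using U.two_le 0
  | succ j ih =>
    have h1 := U.mono (Nat.lt_succ_self j)
    obtain ⟨a, ha⟩ := U.odd j
    obtain ⟨b, hb⟩ := U.odd (j + 1)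
    unfold OddSeq.n at ih ⊢
    simp only [Nat.succ_eq_add_one] at h1
    omega

/-- dropping the first `N` terms -/
def OddSeq.drop (U : OddSeq) (N : ℕ) : OddSeq where
  u j := U.u (j + N)
  mono := fun i j hij => U.mono (by omega)
  odd j := U.odd _
  five_le := le_trans U.five_le (U.mono.monotone (by omega))

theorem OddSeq.one_le (U : OddSeq) (j : ℕ) : 1 ≤ U.n j := le_trans (by norm_num) (U.two_le j)

/-- evaluation in `Sym(X_U)` -/
abbrev evX (U : OddSeq) (w : List (Fin 4)) : Equiv.Perm (X U) := ev (alpha U) (beta U) w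

theorem evX_apply (U : OddSeq) (w : List (Fin 4)) (j : ℕ) (x : Cyc (U.n j)) :
    evX U w ⟨j, x⟩ = ⟨j, evC (U.n j) (U.one_le j) w x⟩ := by
  induction w with
  | nil => rfl
  | cons c w ih =>
    rw [evX, evC, ev_cons, ev_cons, Equiv.Perm.mul_apply, Equiv.Perm.mul_apply, ih]
    fin_cases c <;> rfl

theorem evX_eq_iff (U : OddSeq) (w1 w2 : List (Fin 4)) :
    evX U w1 = evX U w2 ↔
      ∀ j, evC (U.n j) (U.one_le j) w1 = evC (U.n j) (U.one_le j) w2 := by
  constructor
  · intro h j
    ext x
    have := congrArg (fun f => f (⟨j, x⟩ : X U)) h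
    simp only [evX_apply] at this
    have h2 := eq_of_heq (Sigma.mk.inj this).2
    rw [h2]
  · intro h
    ext ⟨j, x⟩ : 1
    rw [evX_apply, evX_apply, h]

instance (n : ℕ) : Finite (Cyc n) :=
  Set.Finite.to_subtype (Set.finite_Icc (-(n : ℤ)) n)

theorem L_drop (U : OddSeq) (N : ℕ) :
    L (alpha U) (beta U) ≤ L (alpha (U.drop N)) (beta (U.drop N)) := by
  let F := (j : Fin N) → Equiv.Perm (Cyc (U.n j))
  have : Finite F := inferInstance
  apply L_le_of_mul (alpha (U.drop N)) (beta (U.drop N)) (alpha U) (beta U) (Nat.card F)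
    Nat.card_pos
  intro k
  rw [ballCard_eq, ballCard_eq]
  let f : List (Fin 4) → F × Equiv.Perm (X (U.drop N)) := fun w =>
    (fun j => evC (U.n j) (U.one_le j) w, evX (U.drop N) w)
  have h1 : (ev (alpha U) (beta U) '' wle k).ncard ≤ (f '' wle k).ncard := by
    apply ncard_image_le_of_factor _ (wle_finite k)
    intro w1 _ w2 _ he
    rw [Prod.mk.injEq] at he
    obtain ⟨he1, he2⟩ := he
    rw [evX_eq_iff] at he2
    apply (evX_eq_iff U w1 w2).2
    intro j
    by_cases hj : j < N
    · exact congrFun he1 ⟨j, hj⟩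
    · have := he2 (j - N)
      have hjN : j - N + N = j := by omega
      have key : ∀ i : ℕ, i = j → evC (U.n i) (U.one_le i) w1 = evC (U.n i) (U.one_le i) w2 →
          evC (U.n j) (U.one_le j) w1 = evC (U.n j) (U.one_le j) w2 := by
        rintro i rfl h; exact h
      exact key _ hjN this
  have h2 : f '' wle k ⊆ (Set.univ : Set F) ×ˢ (evX (U.drop N) '' wle k) := by
    rintro _ ⟨w, hw, rfl⟩
    exact ⟨Set.mem_univ _, ⟨w, hw, rfl⟩⟩
  have h3 : ((Set.univ : Set F) ×ˢ (evX (U.drop N) '' wle k)).Finite :=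
    Set.finite_univ.prod ((wle_finite k).image _)
  calc (ev (alpha U) (beta U) '' wle k).ncard ≤ (f '' wle k).ncard := h1
    _ ≤ ((Set.univ : Set F) ×ˢ (evX (U.drop N) '' wle k)).ncard := Set.ncard_le_ncard h2 h3
    _ = _ := by rw [Set.ncard_prod, Set.ncard_univ]

theorem L_drop_le (U : OddSeq) {m : ℕ} (hm : m ≠ 0) :
    L (alpha U) (beta U) ≤ lg shiftZ cycZ m / m := by
  set V := U.drop (2 * m) with hV
  calc L (alpha U) (beta U) ≤ L (alpha V) (beta V) := L_drop U _
    _ ≤ lg (alpha V) (beta V) m / m := L_le _ _ hm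
    _ ≤ lg shiftZ cycZ m / m := by
      apply div_le_div_of_nonneg_right _ (Nat.cast_nonneg m)
      unfold lg
      apply Real.log_le_log (by exact_mod_cast ballCard_pos (alpha V) (beta V) m)
      have : ballCard ({alpha V, beta V} : Set _) m ≤ ballCard ({shiftZ, cycZ} : Set _) m := by
        rw [ballCard_eq, ballCard_eq]
        apply ncard_image_le_of_factor _ (wle_finite m)
        intro w1 h1 w2 h2 he
        apply (evX_eq_iff V w1 w2).2
        intro j
        apply Z_to_C _ h1 h2 _ he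
        have h3 : V.n j = U.n (j + 2 * m) := rfl
        have := U.n_ge (j + 2 * m)
        omega
      exact_mod_cast this

theorem L_eq (U : OddSeq) : L (alpha U) (beta U) = L shiftZ cycZ := by
  apply le_antisymm
  · apply ge_of_tendsto (L_tendsto shiftZ cycZ)
    filter_upwards [eventually_gt_atTop 0] with m hm
    exact L_drop_le U hm.ne'
  · apply L_le_of_mul (alpha U) (beta U) shiftZ cycZ 1 one_pos
    intro k
    rw [one_mul, ballCard_eq, ballCard_eq]
    apply ncard_image_le_of_factor _ (wle_finite k)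
    intro w1 _ w2 _ he
    apply C_to_Z
    intro N
    refine ⟨U.n N, U.one_le N, ?_, (evX_eq_iff U w1 w2).1 he N⟩
    have := U.n_ge N
    omega

/-! ## Lower bound -/

/-- blocks `t`, `tb`, `tb⁻¹` -/
def blk (i : Fin 3) : List (Fin 4) := match i with
  | 0 => [2]
  | 1 => [2, 0]
  | 2 => [2, 1]

/-- concatenation of blocks -/
def code : List (Fin 3) → List (Fin 4)
  | [] => []
  | i :: c => blk i ++ code c

theorem code_far (c : List (Fin 3)) (y : ℤ) (hy : y ≤ -1 - c.length) :
    evZ (code c) y = y + c.length := by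
  induction c generalizing y with
  | nil => simp [code]
  | cons i c ih =>
    rw [List.length_cons] at hy ⊢
    push_cast at hy ⊢
    have ih := ih y (by linarith)
    rw [code, evZ, ev_append, Equiv.Perm.mul_apply]
    change ev shiftZ cycZ (blk i) (evZ (code c) y) = _
    rw [ih]
    have hfar : 2 ≤ |y + (c.length : ℤ)| := by
      rw [abs_of_nonpos (by linarith)]; linarith
    fin_cases i
    · change (y + c.length) + 1 = _
      ring
    · change c3 (y + c.length) + 1 = _
      rw [c3_far hfar]; ring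
    · change c3' (y + c.length) + 1 = _
      rw [c3'_far hfar]; ring

theorem code_inj (c c' : List (Fin 3)) (h : evZ (code c) = evZ (code c')) : c = c' := by
  have hlen : ∀ c c' : List (Fin 3), evZ (code c) = evZ (code c') → c.length = c'.length := by
    intro c c' h
    have p1 := Int.natCast_nonneg c.length
    have p2 := Int.natCast_nonneg c'.length
    have e1 := code_far c (-1 - c.length - c'.length) (by linarith)
    have e2 := code_far c' (-1 - c.length - c'.length) (by linarith)
    rw [h] at e1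
    have : (c.length : ℤ) = c'.length := by linarith
    exact_mod_cast this
  induction c generalizing c' with
  | nil =>
    have := hlen _ _ h
    exact (List.length_eq_zero_iff.1 this.symm).symm
  | cons i c ih =>
    cases c' with
    | nil => simpa using hlen _ _ h
    | cons i' c' =>
      have hl := hlen _ _ h
      simp only [List.length_cons, add_left_inj] at hl
      have hii : i = i' := by
        have h1 := congrArg (fun f => f (-1 - (c.length : ℤ))) h
        beta_reduce at h1
        rw [code, code, evZ, evZ, ev_append, ev_append, Equiv.Perm.mul_apply,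
          Equiv.Perm.mul_apply] at h1
        change ev shiftZ cycZ (blk i) (evZ (code c) _) = ev shiftZ cycZ (blk i') (evZ (code c') _)
          at h1
        rw [code_far c _ le_rfl, code_far c' _ (by rw [hl])] at h1
        have e : -1 - (c.length : ℤ) + c.length = -1 := by ring
        have e' : -1 - (c.length : ℤ) + c'.length = -1 := by rw [hl]; ring
        rw [e, e'] at h1
        have v : ∀ i : Fin 3, ev shiftZ cycZ (blk i) (-1) = (i : ℤ) := by
          intro i
          fin_cases i <;> rfl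
        rw [v, v] at h1
        exact Fin.ext (by exact_mod_cast h1)
      subst hii
      rw [code, code, evZ, evZ, ev_append, ev_append] at h
      have := ih c' (mul_left_cancel h)
      rw [this]

/-- block sequences of total length `k` -/
def D : ℕ → Finset (List (Fin 3))
  | 0 => {[]}
  | 1 => {[0]}
  | (k + 2) => (D (k + 1)).map ⟨List.cons 0, List.cons_injective⟩ ∪
      ((D k).map ⟨List.cons 1, List.cons_injective⟩ ∪ (D k).map ⟨List.cons 2, List.cons_injective⟩)

theorem D_card : ∀ k, 2 ^ k ≤ 2 * (D k).card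
  | 0 => by simp [D]
  | 1 => by simp [D]
  | (k + 2) => by
    have h1 := D_card (k + 1)
    have h2 := D_card k
    have : (D (k + 2)).card = (D (k + 1)).card + ((D k).card + (D k).card) := by
      rw [D, Finset.card_union_of_disjoint, Finset.card_union_of_disjoint, Finset.card_map,
        Finset.card_map, Finset.card_map]
      · rw [Finset.disjoint_left]
        intro x hx hx'
        simp only [Finset.mem_map, Function.Embedding.coeFn_mk] at hx hx'
        obtain ⟨a, -, rfl⟩ := hx
        obtain ⟨b, -, hb⟩ := hx'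
        simp at hb
      · rw [Finset.disjoint_left]
        intro x hx hx'
        simp only [Finset.mem_map, Finset.mem_union, Function.Embedding.coeFn_mk] at hx hx'
        obtain ⟨a, -, rfl⟩ := hx
        rcases hx' with ⟨b, -, hb⟩ | ⟨b, -, hb⟩ <;> simp at hb
    rw [this]
    ring_nf at h1 ⊢
    omega

theorem D_len : ∀ k, ∀ c ∈ D k, (code c).length = k
  | 0 => by intro c hc; simp [D] at hc; subst hc; rfl
  | 1 => by intro c hc; simp [D] at hc; subst hc; rfl
  | (k + 2) => by
    intro c hc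
    rw [D] at hc
    simp only [Finset.mem_map, Finset.mem_union, Function.Embedding.coeFn_mk] at hc
    rcases hc with ⟨a, ha, rfl⟩ | ⟨a, ha, rfl⟩ | ⟨a, ha, rfl⟩
    · have := D_len (k + 1) a ha
      simp [code, blk, this]
    · have := D_len k a ha
      simp [code, blk, this]
    · have := D_len k a ha
      simp [code, blk, this]

theorem lower (k : ℕ) : (2 : ℝ) ^ k ≤ 2 * ballCard ({shiftZ, cycZ} : Set (Equiv.Perm ℤ)) k := by
  have h1 : (D k).card ≤ ballCard ({shiftZ, cycZ} : Set (Equiv.Perm ℤ)) k := by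
    rw [ballCard_eq]
    have h2 : ((fun c => evZ (code c)) '' (D k : Set (List (Fin 3)))).ncard = (D k).card := by
      rw [Set.ncard_image_of_injective _ (fun c c' h => code_inj c c' h), Set.ncard_coe_finset]
    rw [← h2]
    apply Set.ncard_le_ncard _ ((wle_finite k).image _)
    rintro _ ⟨c, hc, rfl⟩
    exact ⟨code c, (D_len k c hc).le, rfl⟩
  have h3 := D_card k
  have h4 : (2 ^ k : ℕ) ≤ 2 * ballCard ({shiftZ, cycZ} : Set (Equiv.Perm ℤ)) k := by omega
  exact_mod_cast h4

/-! ## Upper bound -/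

/-- numerical code of a word, with the shortlex order -/
def num (acc : ℕ) : List (Fin 4) → ℕ
  | [] => acc
  | c :: w => num (4 * acc + c) w

theorem num_append (acc : ℕ) (w v : List (Fin 4)) : num acc (w ++ v) = num (num acc w) v := by
  induction w generalizing acc with
  | nil => rfl
  | cons c w ih => simp [num, ih]

theorem num_mono {a a' : ℕ} (h : a < a') (w : List (Fin 4)) : num a w < num a' w := by
  induction w generalizing a a' with
  | nil => exact h
  | cons c w ih => exact ih (by omega)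

theorem num_lower (a : ℕ) (w : List (Fin 4)) : a * 4 ^ w.length ≤ num a w := by
  induction w generalizing a with
  | nil => simp [num]
  | cons c w ih =>
    rw [num, List.length_cons, pow_succ]
    have := ih (4 * a + c)
    calc a * (4 ^ w.length * 4) ≤ (4 * a + c) * 4 ^ w.length := by ring_nf; omega
      _ ≤ _ := this

theorem num_upper (a : ℕ) (w : List (Fin 4)) : num a w < (a + 1) * 4 ^ w.length := by
  induction w generalizing a with
  | nil => simp [num]
  | cons c w ih =>
    rw [num, List.length_cons, pow_succ]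
    have := ih (4 * a + c)
    have hc := c.2
    calc _ < (4 * a + c + 1) * 4 ^ w.length := this
      _ ≤ (4 * a + 4) * 4 ^ w.length := Nat.mul_le_mul_right _ (by omega)
      _ = _ := by ring

/-- the rewriting rules -/
def rules : List (List (Fin 4) × List (Fin 4)) :=
  [([0, 0], [1]), ([0, 1], []), ([1, 0], []), ([1, 1], [0]), ([2, 3], []), ([3, 2], []),
    ([2, 0, 3, 0], [1, 2, 1, 3]), ([2, 1, 3, 1], [0, 2, 0, 3]), ([3, 0, 2, 0], [1, 3, 1, 2]),
    ([3, 1, 2, 1], [0, 3, 0, 2])]

theorem rules_num (r : List (Fin 4) × List (Fin 4)) (hr : r ∈ rules) (a : ℕ) (ha : 1 ≤ a) :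
    num a r.2 < num a r.1 := by
  simp only [rules, List.mem_cons, List.not_mem_nil, or_false] at hr
  rcases hr with rfl | rfl | rfl | rfl | rfl | rfl | rfl | rfl | rfl | rfl <;>
    simp [num] <;> omega

theorem evZ_eq_of (w1 w2 : List (Fin 4)) (h1 : w1.length ≤ 4) (h2 : w2.length ≤ 4)
    (hex : ex w1 = ex w2) (h : ∀ x ∈ Finset.Icc (-5 : ℤ) 5, evZ w1 x = evZ w2 x) :
    evZ w1 = evZ w2 := by
  ext x
  by_cases hx : |x| ≤ 5
  · exact h x (Finset.mem_Icc.2 (abs_le.1 hx))
  · push Not at hx
    have h1' : (w1.length : ℤ) ≤ 4 := by exact_mod_cast h1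
    have h2' : (w2.length : ℤ) ≤ 4 := by exact_mod_cast h2
    rw [(evZ_far w1 x (by omega)).1, (evZ_far w2 x (by omega)).1, hex]

theorem rules_ev (r : List (Fin 4) × List (Fin 4)) (hr : r ∈ rules) : evZ r.1 = evZ r.2 := by
  simp only [rules, List.mem_cons, List.not_mem_nil, or_false] at hr
  rcases hr with rfl | rfl | rfl | rfl | rfl | rfl | rfl | rfl | rfl | rfl
  all_goals exact evZ_eq_of _ _ (by decide) (by decide) (by decide) (by decide)

/-- words avoiding all left hand sides of the rules -/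
def Good (w : List (Fin 4)) : Prop := ∀ r ∈ rules, ¬ r.1 <:+: w

theorem exists_good (w : List (Fin 4)) :
    ∃ v, Good v ∧ v.length ≤ w.length ∧ evZ v = evZ w := by
  classical
  have hex : ∃ n : ℕ, ∃ v, evZ v = evZ w ∧ num 1 v = n := ⟨_, w, rfl, rfl⟩
  obtain ⟨v, hv, hn⟩ := Nat.find_spec hex
  have hmin : ∀ v', evZ v' = evZ w → num 1 v ≤ num 1 v' := by
    intro v' hv'
    rw [hn]
    exact Nat.find_min' hex ⟨v', hv', rfl⟩
  refine ⟨v, ?_, ?_, hv⟩
  · rintro r hr ⟨s, t, hst⟩
    have h1 : evZ (s ++ r.2 ++ t) = evZ w := by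
      rw [← hv, ← hst, evZ, evZ, ev_append, ev_append, ev_append, ev_append]
      change ev shiftZ cycZ s * evZ r.2 * ev shiftZ cycZ t =
        ev shiftZ cycZ s * evZ r.1 * ev shiftZ cycZ t
      rw [rules_ev r hr]
    have h2 := hmin _ h1
    rw [← hst, num_append, num_append, num_append, num_append] at h2
    have h3 : 1 ≤ num 1 s := le_trans (by simpa using Nat.one_le_pow _ _ (by norm_num))
      (num_lower 1 s)
    have h4 := num_mono (rules_num r hr _ h3) t
    omega
  · by_contra hlt
    push Not at hlt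
    have h1 := hmin w rfl
    have h2 := num_lower 1 v
    have h3 := num_upper 1 w
    have h4 : 4 ^ (w.length + 1) ≤ 4 ^ v.length := Nat.pow_le_pow_right (by norm_num) hlt
    rw [pow_succ] at h4
    omega

/-- number of words of length `k` which give good words when prefixed by `p` -/
noncomputable def N (k : ℕ) (p : List (Fin 4)) : ℕ :=
  Set.ncard {w : List (Fin 4) | w.length = k ∧ Good (p ++ w)}

theorem N_fin (k : ℕ) (p : List (Fin 4)) :
    {w : List (Fin 4) | w.length = k ∧ Good (p ++ w)}.Finite :=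
  (List.finite_length_eq (Fin 4) k).subset fun _ h => h.1

theorem N_zero (p : List (Fin 4)) : N 0 p ≤ 1 := by
  have : {w : List (Fin 4) | w.length = 0 ∧ Good (p ++ w)} ⊆ {[]} := by
    intro w hw
    exact List.length_eq_zero_iff.1 hw.1
  calc N 0 p ≤ ({[]} : Set (List (Fin 4))).ncard := Set.ncard_le_ncard this (Set.finite_singleton _)
    _ = 1 := Set.ncard_singleton _

theorem N_suffix (k : ℕ) (p q : List (Fin 4)) : N k (p ++ q) ≤ N k q := by
  apply Set.ncard_le_ncard _ (N_fin k q)
  intro w hw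
  refine ⟨hw.1, fun r hr hi => hw.2 r hr ?_⟩
  rw [List.append_assoc]
  exact hi.trans (List.suffix_append _ _).isInfix

theorem N_bad (k : ℕ) (p : List (Fin 4)) (r : List (Fin 4) × List (Fin 4)) (hr : r ∈ rules)
    (h : r.1 <:+: p) : N k p = 0 := by
  unfold N
  rw [Set.ncard_eq_zero (N_fin k p)]
  apply Set.eq_empty_of_forall_notMem
  intro w hw
  exact hw.2 r hr (h.trans (List.prefix_append _ _).isInfix)

theorem N_succ (k : ℕ) (p : List (Fin 4)) :
    N (k + 1) p ≤ N k (p ++ [0]) + N k (p ++ [1]) + N k (p ++ [2]) + N k (p ++ [3]) := by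
  have hsub : {w : List (Fin 4) | w.length = k + 1 ∧ Good (p ++ w)} ⊆
      (List.cons 0 '' {w : List (Fin 4) | w.length = k ∧ Good ((p ++ [0]) ++ w)} ∪
      List.cons 1 '' {w : List (Fin 4) | w.length = k ∧ Good ((p ++ [1]) ++ w)}) ∪
      List.cons 2 '' {w : List (Fin 4) | w.length = k ∧ Good ((p ++ [2]) ++ w)} ∪
      List.cons 3 '' {w : List (Fin 4) | w.length = k ∧ Good ((p ++ [3]) ++ w)} := by
    rintro w ⟨hw, hg⟩
    cases w with
    | nil => simp at hw
    | cons c w =>
      have hw' : w.length = k := by simpa using hw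
      have hg' : Good ((p ++ [c]) ++ w) := by simpa using hg
      fin_cases c
      · exact Or.inl (Or.inl (Or.inl ⟨w, ⟨hw', hg'⟩, rfl⟩))
      · exact Or.inl (Or.inl (Or.inr ⟨w, ⟨hw', hg'⟩, rfl⟩))
      · exact Or.inl (Or.inr ⟨w, ⟨hw', hg'⟩, rfl⟩)
      · exact Or.inr ⟨w, ⟨hw', hg'⟩, rfl⟩
  have hi : ∀ c : Fin 4, (List.cons c '' {w : List (Fin 4) | w.length = k ∧
      Good ((p ++ [c]) ++ w)}).ncard ≤ N k (p ++ [c]) := fun c => Set.ncard_image_le (N_fin k _)
  have hf : ∀ c : Fin 4, (List.cons c '' {w : List (Fin 4) | w.length = k ∧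
      Good ((p ++ [c]) ++ w)}).Finite := fun c => (N_fin k _).image _
  calc N (k + 1) p ≤ _ := Set.ncard_le_ncard hsub ((((hf 0).union (hf 1)).union (hf 2)).union (hf 3))
    _ ≤ _ := Set.ncard_union_le _ _
    _ ≤ _ := Nat.add_le_add_right (Set.ncard_union_le _ _) _
    _ ≤ _ := Nat.add_le_add_right (Nat.add_le_add_right (Set.ncard_union_le _ _) _) _
    _ ≤ _ := Nat.add_le_add (Nat.add_le_add (Nat.add_le_add (hi 0) (hi 1)) (hi 2)) (hi 3)

theorem good_infix (u v : List (Fin 4)) (hd : decide (u <:+: v) = true) : u <:+: v :=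
  of_decide_eq_true hd

theorem N_bounds (ρ σ : ℝ) (hσ : 0 < σ) (hσ2 : σ ^ 2 = 2) (hρ : ρ = 1 + σ) (k : ℕ) :
    ((N k [2] : ℝ) ≤ σ * ρ ^ k ∧ (N k [3] : ℝ) ≤ σ * ρ ^ k) ∧
    ((N k [2, 0] : ℝ) ≤ ρ ^ k ∧ (N k [2, 1] : ℝ) ≤ ρ ^ k ∧ (N k [3, 0] : ℝ) ≤ ρ ^ k ∧
      (N k [3, 1] : ℝ) ≤ ρ ^ k) ∧
    ((N k [2, 0, 3] : ℝ) ≤ ρ ^ k ∧ (N k [2, 1, 3] : ℝ) ≤ ρ ^ k ∧ (N k [3, 0, 2] : ℝ) ≤ ρ ^ k ∧
      (N k [3, 1, 2] : ℝ) ≤ ρ ^ k) := by
  have hσ1 : 1 ≤ σ := by nlinarith
  induction k with
  | zero =>
    have h : ∀ p, (N 0 p : ℝ) ≤ 1 := fun p => by exact_mod_cast N_zero p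
    simp only [pow_zero, mul_one]
    refine ⟨⟨(h _).trans hσ1, (h _).trans hσ1⟩, ⟨h _, h _, h _, h _⟩, ⟨h _, h _, h _, h _⟩⟩
  | succ k ih =>
    obtain ⟨⟨x2, x3⟩, ⟨y20, y21, y30, y31⟩, ⟨z203, z213, z302, z312⟩⟩ := ih
    have hρk : 0 < ρ ^ k := by
      have : 0 < ρ := by rw [hρ]; linarith
      positivity
    have S : ∀ p, (N (k + 1) p : ℝ) ≤ N k (p ++ [0]) + N k (p ++ [1]) + N k (p ++ [2]) +
        N k (p ++ [3]) := fun p => by exact_mod_cast N_succ k p
    have Z : ∀ p, ∀ r ∈ rules, r.1 <:+: p → (N k p : ℝ) = 0 := fun p r hr h => by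
      rw [N_bad k p r hr h]; simp
    have F : ∀ p q, (N k (p ++ q) : ℝ) ≤ N k q := fun p q => by exact_mod_cast N_suffix k p q
    rw [pow_succ]
    refine ⟨⟨?_, ?_⟩, ⟨?_, ?_, ?_, ?_⟩, ⟨?_, ?_, ?_, ?_⟩⟩
    · have e := S [2]
      have e1 := Z ([2] ++ [3]) ([2, 3], []) (by simp [rules]) (by decide)
      have e2 := F [2] [2]
      simp only [List.cons_append, List.nil_append] at e e1 e2
      nlinarith
    · have e := S [3]
      have e1 := Z ([3] ++ [2]) ([3, 2], []) (by simp [rules]) (by decide)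
      have e2 := F [3] [3]
      simp only [List.cons_append, List.nil_append] at e e1 e2
      nlinarith
    · have e := S [2, 0]
      have e1 := Z ([2, 0] ++ [0]) ([0, 0], [1]) (by simp [rules]) (by decide)
      have e2 := Z ([2, 0] ++ [1]) ([0, 1], []) (by simp [rules]) (by decide)
      have e3 := F [2, 0] [2]
      simp only [List.cons_append, List.nil_append] at e e1 e2 e3
      nlinarith
    · have e := S [2, 1]
      have e1 := Z ([2, 1] ++ [0]) ([1, 0], []) (by simp [rules]) (by decide)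
      have e2 := Z ([2, 1] ++ [1]) ([1, 1], [0]) (by simp [rules]) (by decide)
      have e3 := F [2, 1] [2]
      simp only [List.cons_append, List.nil_append] at e e1 e2 e3
      nlinarith
    · have e := S [3, 0]
      have e1 := Z ([3, 0] ++ [0]) ([0, 0], [1]) (by simp [rules]) (by decide)
      have e2 := Z ([3, 0] ++ [1]) ([0, 1], []) (by simp [rules]) (by decide)
      have e3 := F [3, 0] [3]
      simp only [List.cons_append, List.nil_append] at e e1 e2 e3
      nlinarith
    · have e := S [3, 1]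
      have e1 := Z ([3, 1] ++ [0]) ([1, 0], []) (by simp [rules]) (by decide)
      have e2 := Z ([3, 1] ++ [1]) ([1, 1], [0]) (by simp [rules]) (by decide)
      have e3 := F [3, 1] [3]
      simp only [List.cons_append, List.nil_append] at e e1 e2 e3
      nlinarith
    · have e := S [2, 0, 3]
      have e1 := Z ([2, 0, 3] ++ [0]) ([2, 0, 3, 0], [1, 2, 1, 3]) (by simp [rules]) (by decide)
      have e2 := Z ([2, 0, 3] ++ [2]) ([3, 2], []) (by simp [rules]) (by decide)
      have e3 := F [2, 0, 3] [3]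
      have e4 := F [2, 0] [3, 1]
      simp only [List.cons_append, List.nil_append] at e e1 e2 e3 e4
      nlinarith
    · have e := S [2, 1, 3]
      have e1 := Z ([2, 1, 3] ++ [1]) ([2, 1, 3, 1], [0, 2, 0, 3]) (by simp [rules]) (by decide)
      have e2 := Z ([2, 1, 3] ++ [2]) ([3, 2], []) (by simp [rules]) (by decide)
      have e3 := F [2, 1, 3] [3]
      have e4 := F [2, 1] [3, 0]
      simp only [List.cons_append, List.nil_append] at e e1 e2 e3 e4
      nlinarith
    · have e := S [3, 0, 2]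
      have e1 := Z ([3, 0, 2] ++ [0]) ([3, 0, 2, 0], [1, 3, 1, 2]) (by simp [rules]) (by decide)
      have e2 := Z ([3, 0, 2] ++ [3]) ([2, 3], []) (by simp [rules]) (by decide)
      have e3 := F [3, 0, 2] [2]
      have e4 := F [3, 0] [2, 1]
      simp only [List.cons_append, List.nil_append] at e e1 e2 e3 e4
      nlinarith
    · have e := S [3, 1, 2]
      have e1 := Z ([3, 1, 2] ++ [1]) ([3, 1, 2, 1], [0, 3, 0, 2]) (by simp [rules]) (by decide)
      have e2 := Z ([3, 1, 2] ++ [3]) ([2, 3], []) (by simp [rules]) (by decide)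
      have e3 := F [3, 1, 2] [2]
      have e4 := F [3, 1] [2, 0]
      simp only [List.cons_append, List.nil_append] at e e1 e2 e3 e4
      nlinarith

theorem N_total (k : ℕ) : (N k [] : ℝ) ≤ 10 * (1 + √2) ^ k := by
  have hσ : 0 < √2 := by positivity
  have hσ2 : (√2) ^ 2 = 2 := Real.sq_sqrt (by norm_num)
  have hσ1 : 1 ≤ √2 := by nlinarith
  have hσ3 : √2 ≤ 2 := by nlinarith
  set ρ : ℝ := 1 + √2 with hρ
  have hρ1 : 1 ≤ ρ := by rw [hρ]; linarith
  have hB := N_bounds ρ (√2) hσ hσ2 hρ
  have h0 : ∀ k, (N k [0] : ℝ) ≤ 4 * ρ ^ k ∧ (N k [1] : ℝ) ≤ 4 * ρ ^ k := by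
    intro k
    cases k with
    | zero =>
      have h : ∀ p, (N 0 p : ℝ) ≤ 1 := fun p => by exact_mod_cast N_zero p
      constructor <;> [have := h [0]; have := h [1]] <;> simp only [pow_zero] <;> linarith
    | succ k =>
      have S : ∀ p, (N (k + 1) p : ℝ) ≤ N k (p ++ [0]) + N k (p ++ [1]) + N k (p ++ [2]) +
        N k (p ++ [3]) := fun p => by exact_mod_cast N_succ k p
      have Z : ∀ p, ∀ r ∈ rules, r.1 <:+: p → (N k p : ℝ) = 0 := fun p r hr h => by
        rw [N_bad k p r hr h]; simp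
      have F : ∀ p q, (N k (p ++ q) : ℝ) ≤ N k q := fun p q => by exact_mod_cast N_suffix k p q
      have hρk : 0 < ρ ^ k := by positivity
      obtain ⟨⟨x2, x3⟩, -, -⟩ := hB k
      rw [pow_succ]
      constructor
      · have e := S [0]
        have e1 := Z ([0] ++ [0]) ([0, 0], [1]) (by simp [rules]) (by decide)
        have e2 := Z ([0] ++ [1]) ([0, 1], []) (by simp [rules]) (by decide)
        have e3 := F [0] [2]
        have e4 := F [0] [3]
        simp only [List.cons_append, List.nil_append] at e e1 e2 e3 e4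
        nlinarith
      · have e := S [1]
        have e1 := Z ([1] ++ [0]) ([1, 0], []) (by simp [rules]) (by decide)
        have e2 := Z ([1] ++ [1]) ([1, 1], [0]) (by simp [rules]) (by decide)
        have e3 := F [1] [2]
        have e4 := F [1] [3]
        simp only [List.cons_append, List.nil_append] at e e1 e2 e3 e4
        nlinarith
  cases k with
  | zero =>
    have h : (N 0 [] : ℝ) ≤ 1 := by exact_mod_cast N_zero []
    simp only [pow_zero]; linarith
  | succ k =>
    have S : (N (k + 1) [] : ℝ) ≤ N k [0] + N k [1] + N k [2] + N k [3] := by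
      exact_mod_cast N_succ k []
    have hρk : 0 < ρ ^ k := by positivity
    obtain ⟨⟨x2, x3⟩, -, -⟩ := hB k
    obtain ⟨a0, a1⟩ := h0 k
    rw [pow_succ]
    nlinarith

theorem upper (k : ℕ) : (ballCard ({shiftZ, cycZ} : Set (Equiv.Perm ℤ)) k : ℝ) ≤
    10 * (k + 1) * (1 + √2) ^ k := by
  have h1 : ballCard ({shiftZ, cycZ} : Set (Equiv.Perm ℤ)) k ≤ ∑ j ∈ Finset.range (k + 1), N j [] := by
    rw [ballCard_eq]
    have hsub : ev shiftZ cycZ '' wle k ⊆ ⋃ j ∈ Finset.range (k + 1),
        evZ '' {w : List (Fin 4) | w.length = j ∧ Good ([] ++ w)} := by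
      rintro _ ⟨w, hw, rfl⟩
      obtain ⟨v, hv1, hv2, hv3⟩ := exists_good w
      simp only [Set.mem_iUnion]
      refine ⟨v.length, ?_, v, ⟨rfl, by simpa using hv1⟩, hv3⟩
      rw [Finset.mem_range]
      have : w.length ≤ k := hw
      omega
    calc (ev shiftZ cycZ '' wle k).ncard ≤ _ := Set.ncard_le_ncard hsub
          (Set.Finite.biUnion (Finset.finite_toSet _) fun j _ => (N_fin j []).image _)
      _ ≤ ∑ j ∈ Finset.range (k + 1), (evZ '' {w : List (Fin 4) | w.length = j ∧
          Good ([] ++ w)}).ncard := Finset.set_ncard_biUnion_le _ _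
      _ ≤ _ := Finset.sum_le_sum fun j _ => Set.ncard_image_le (N_fin j [])
  have h2 : (ballCard ({shiftZ, cycZ} : Set (Equiv.Perm ℤ)) k : ℝ) ≤
      ∑ j ∈ Finset.range (k + 1), (N j [] : ℝ) := by exact_mod_cast h1
  have hρ : 1 ≤ 1 + √2 := by linarith [Real.sqrt_nonneg 2]
  calc (ballCard ({shiftZ, cycZ} : Set (Equiv.Perm ℤ)) k : ℝ)
      ≤ ∑ j ∈ Finset.range (k + 1), (N j [] : ℝ) := h2
    _ ≤ ∑ j ∈ Finset.range (k + 1), 10 * (1 + √2) ^ k := by
        apply Finset.sum_le_sum
        intro j hj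
        rw [Finset.mem_range] at hj
        refine (N_total j).trans ?_
        apply mul_le_mul_of_nonneg_left _ (by norm_num)
        exact pow_le_pow_right₀ hρ (by omega)
    _ = 10 * (k + 1) * (1 + √2) ^ k := by
        rw [Finset.sum_const, Finset.card_range, nsmul_eq_mul]
        push_cast
        ring

end Pool.Agent.H.MP_dd51f8_al
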